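import Pool.Agent.W353.AT.Defs

/-!
# The symmetric powers of a two-dimensional compatible family over a number field: definitions

`K` is a number field.  A two-dimensional family of weight `w` (for example `H¹` of an elliptic curve
over `K`, `w = 1`) has at almost all primes `v` Frobenius eigenvalues `a`, `b` with `a b = q_v^w` and
`a + b = t_v q_v^{w/2}`, `-2 ≤ t_v ≤ 2`.
-/

set_option autoImplicit false

namespace Pool.Agent.H2N.ST

open NumberField IsDedekindDomain Filter Topology Polynomial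
open Pool.Agent.W353.EH (edgePoint)

/-- The polynomials `B v` are the Euler factors of `L(Sym^k V, s)` for the two-dimensional family `V` of
weight `w` with the normalised traces `t_v`: for almost all primes `v`,
`B_v(z) = ∏_{j ≤ k} (1 - a^{k - j} b^j z)`, where `a` and `b` are the two numbers with the sum
`t_v q_v^{w/2}` and the product `q_v^w`; at the other primes `B v` is an arbitrary polynomial, and no
factor `1 / B_v(q_v^{-s})` has a pole at the point `s = k w / 2 + 1 + i τ` of the edge line. -/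
def IsSymFamily {K : Type} [Field K] [NumberField K] (t : HeightOneSpectrum (𝓞 K) → ℝ) (w k : ℕ)
    (τ : ℝ) (B : HeightOneSpectrum (𝓞 K) → ℂ[X]) : Prop :=
  (∀ᶠ v in cofinite, ∃ a b : ℂ,
    a + b = ((t v * (Ideal.absNorm v.asIdeal : ℝ) ^ ((w : ℝ) / 2) : ℝ) : ℂ) ∧
    a * b = (Ideal.absNorm v.asIdeal : ℂ) ^ w ∧
    ∀ z : ℂ, (B v).eval z = ∏ j : Fin (k + 1), (1 - a ^ (k - (j : ℕ)) * b ^ (j : ℕ) * z)) ∧
  ∀ v, (B v).eval ((Ideal.absNorm v.asIdeal : ℂ) ^ (-edgePoint (k * w) τ)) ≠ 0

/-- The Dirichlet average of a function `φ` on the primes of `K` is `A`: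
`∑ φ(v) q_v^{-1-ε} / ∑ q_v^{-1-ε}` tends to `A` as `ε → 0+`. -/
def DirichletMean {K : Type} [Field K] [NumberField K] (φ : HeightOneSpectrum (𝓞 K) → ℝ)
    (A : ℝ) : Prop :=
  Tendsto (fun ε : ℝ =>
    (∑' v : HeightOneSpectrum (𝓞 K), φ v * (Ideal.absNorm v.asIdeal : ℝ) ^ (-(1 + ε))) /
      ∑' v : HeightOneSpectrum (𝓞 K), (Ideal.absNorm v.asIdeal : ℝ) ^ (-(1 + ε)))
    (𝓝[>] 0) (𝓝 A)

end Pool.Agent.H2N.ST
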