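import Pool.Agent.H2N.SY.Main
import Pool.Agent.H2N.ST.Defs

/-!
Symmetric powers of a two-dimensional family: sizes, positivity with heights.
-/

set_option autoImplicit false

namespace Pool.Agent.H2N.ST

open Complex Filter Topology ComplexConjugate NumberField IsDedekindDomain Asymptotics
  Pool.Agent.W401.Cheb Pool.Agent.W540.BE Pool.Agent.W353.L1 Polynomial
open Pool.Agent.H341R2 (lam lam_tendsto)
open Pool.Agent.W353.EF (LFun)
open Pool.Agent.W353.EH (edgePoint size HasOrder)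
open Pool.Agent.W353.AT (IsArtin exists_common)
open Pool.Agent.Y139.SM (EP_cofinite)
open Pool.Agent.H2N.TL (size_lim artin_one)
open Pool.Agent.H2N.SY (sym_sum norm_root ub ub_spec ub_nonneg mean_zero)

section
variable {K : Type} [Field K] [NumberField K]

/-! ### Approximations of mean values -/

/-- `φ` is bounded and its mean value at `ε` is close to `y ε` -/
def Near (φ : HeightOneSpectrum (𝓞 K) → ℝ) (y : ℝ → ℝ) : Prop :=
  (∃ B : ℝ, ∀ v, |φ v| ≤ B) ∧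
    Tendsto (fun ε : ℝ => (EP (nm K) ε φ) / lam ε - y ε) (𝓝[>] 0) (𝓝 0)

theorem Near.add {φ ψ : HeightOneSpectrum (𝓞 K) → ℝ} {y z : ℝ → ℝ} (h : Near φ y)
    (h' : Near ψ z) : Near (fun v => φ v + ψ v) (fun ε => y ε + z ε) := by
  obtain ⟨⟨B, hB⟩, h⟩ := h
  obtain ⟨⟨B', hB'⟩, h'⟩ := h'
  refine ⟨⟨B + B', fun v => (abs_add_le _ _).trans (add_le_add (hB v) (hB' v))⟩, ?_⟩
  have h2 := h.add h'
  rw [add_zero] at h2
  refine h2.congr' ?_
  filter_upwards [self_mem_nhdsWithin] with ε hε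
  rw [EP_add normSys hε hB hB', add_div]
  ring

theorem Near.const_mul {φ : HeightOneSpectrum (𝓞 K) → ℝ} {y : ℝ → ℝ} (h : Near φ y) (c : ℝ) :
    Near (fun v => c * φ v) (fun ε => c * y ε) := by
  obtain ⟨⟨B, hB⟩, h⟩ := h
  refine ⟨⟨|c| * B, fun v => ?_⟩, ?_⟩
  · rw [abs_mul]
    exact mul_le_mul_of_nonneg_left (hB v) (abs_nonneg _)
  · have h2 := h.const_mul c
    rw [mul_zero] at h2
    refine h2.congr fun ε => ?_
    rw [EP_const_mul, mul_div_assoc]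
    ring

theorem near_one : Near (K := K) (fun _ => 1) (fun _ => 1) := by
  refine ⟨⟨1, fun _ => by simp⟩, ?_⟩
  have := (EP_one K).sub_const 1
  rwa [sub_self] at this

theorem near_zero : Near (K := K) (fun _ => 0) (fun _ => 0) := by
  have := (near_one (K := K)).const_mul 0
  simpa using this

theorem Near.sum {κ : Type*} (S : Finset κ) {φ : κ → HeightOneSpectrum (𝓞 K) → ℝ}
    {y : κ → ℝ → ℝ} (h : ∀ k ∈ S, Near (φ k) (y k)) :
    Near (fun v => ∑ k ∈ S, φ k v) (fun ε => ∑ k ∈ S, y k ε) := by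
  classical
  induction S using Finset.induction_on with
  | empty => simpa using near_zero (K := K)
  | insert a S ha ih =>
    have h1 := (h a (Finset.mem_insert_self _ _)).add
      (ih fun k hk => h k (Finset.mem_insert_of_mem hk))
    simp only [Finset.sum_insert ha]
    exact h1

theorem Near.nonneg {φ : HeightOneSpectrum (𝓞 K) → ℝ} {y : ℝ → ℝ} (h : Near φ y)
    (h0 : ∀ v, 0 ≤ φ v) {η : ℝ} (hη : 0 < η) : ∀ᶠ ε : ℝ in 𝓝[>] 0, -η ≤ y ε := by
  filter_upwards [(Metric.tendsto_nhds.1 h.2) η hη, lam_tendsto.eventually_gt_atTop 0,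
    self_mem_nhdsWithin] with ε h2 h3 h4
  rw [Real.dist_eq, sub_zero] at h2
  have h5 : 0 ≤ EP (nm K) ε φ := tsum_nonneg fun v => mul_nonneg (h0 v) (wP_nonneg ε v)
  have h6 := div_nonneg h5 h3.le
  have h7 := (abs_lt.1 h2).2
  linarith

/-! ### The height -/

theorem re_zz (τ : ℝ) (v : HeightOneSpectrum (𝓞 K)) :
    (zz τ v).re = Real.cos (τ * Real.log (nm K v)) := by
  have hn : ((nm K v : ℕ) : ℂ) ≠ 0 := by
    have := nm_pos v
    exact_mod_cast this.ne'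
  unfold zz
  have h1 : ((nm K v : ℕ) : ℂ) ^ (-(τ * I)) =
      Complex.exp (((-(τ * Real.log (nm K v)) : ℝ) : ℂ) * I) := by
    rw [Complex.cpow_def_of_ne_zero hn]
    congr 1
    rw [← Complex.natCast_log]
    push_cast
    ring
  rw [h1, Complex.exp_ofReal_mul_I_re, Real.cos_neg]

theorem RR_triv (τ : ℝ) (σ : HeightOneSpectrum (𝓞 K) → GK K) (v : HeightOneSpectrum (𝓞 K)) :
    RR (1 : Representation ℂ (GK K) (Fin 1 → ℂ)) τ σ v = (zz τ v).re := by
  unfold RR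
  have : (1 : Representation ℂ (GK K) (Fin 1 → ℂ)).character (σ v)⁻¹ = 1 := by
    unfold Representation.character
    simp
  rw [this, one_mul]

theorem near_cos {τ : ℝ} (hτ : τ ≠ 0) : Near (K := K) (fun v => (zz τ v).re) (fun _ => 0) := by
  choose σ hσ using exists_isFrob (F := K)
  refine ⟨⟨1, fun v => (Complex.abs_re_le_norm _).trans (norm_zz τ v).le⟩, ?_⟩
  have h := mean_zero (1 : Representation ℂ (GK K) (Fin 1 → ℂ)) artin_one σ hσ hτ
  simp only [RR_triv] at h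
  simpa using h

theorem det_triv (c : ℂ) (g : GK K) :
    LinearMap.det (1 - c • (1 : Representation ℂ (GK K) (Fin 1 → ℂ)) g) = 1 - c := by
  have h : (1 : Module.End ℂ (Fin 1 → ℂ)) - c • (1 : Representation ℂ (GK K) (Fin 1 → ℂ)) g =
      (1 - c) • (1 : Module.End ℂ (Fin 1 → ℂ)) := by
    rw [MonoidHom.one_apply]
    refine LinearMap.ext fun x => ?_
    simp only [LinearMap.sub_apply, LinearMap.smul_apply, Module.End.one_apply]
    rw [sub_smul, one_smul]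
  rw [h, LinearMap.det_smul]
  simp

/-! ### The sizes of the symmetric powers -/

theorem sym_near {t : HeightOneSpectrum (𝓞 K) → ℝ} (ht : ∀ v, |t v| ≤ 2) (w k : ℕ) (τ : ℝ)
    {B : HeightOneSpectrum (𝓞 K) → ℂ[X]} (hB : IsSymFamily t w k τ B) :
    (∀ᶠ ε : ℝ in 𝓝[>] 0, LFun B (edgePoint (k * w) τ + ε) ≠ 0) ∧
    Near (fun v => (Chebyshev.U ℝ (k : ℤ)).eval (t v / 2) * (zz τ v).re)
      (size (k * w) τ B) := by
  classical
  choose σ hσ using exists_isFrob (F := K)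
  set χ : Representation ℂ (GK K) (Fin 1 → ℂ) := 1 with hχdef
  have hχ : IsArtin χ := artin_one
  obtain ⟨U, hUn, hU, hx1⟩ := exists_common (κ := Unit) (n := fun _ => 1)
    (fun _ => χ) fun _ => hχ
  have hx1 : ∀ u ∈ U, χ u = 1 := hx1 ()
  have hfin : Finite (GK K ⧸ U) := Subgroup.quotient_finite_of_isOpen U hU
  set Q : HeightOneSpectrum (𝓞 K) → ℂ → ℂ → Prop := fun v a b =>
    a + b = ((t v * (nm K v : ℝ) ^ ((w : ℝ) / 2) : ℝ) : ℂ) ∧ a * b = ((nm K v : ℕ) : ℂ) ^ w ∧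
    ∀ z : ℂ, (B v).eval z = ∏ j : Fin (k + 1), (1 - a ^ (k - (j : ℕ)) * b ^ (j : ℕ) * z) with hQ
  have hex : ∀ v : HeightOneSpectrum (𝓞 K), ∃ p : ℂ × ℂ, (∃ a b : ℂ, Q v a b) → Q v p.1 p.2 := by
    intro v
    by_cases h : ∃ a b : ℂ, Q v a b
    · obtain ⟨a, b, h1⟩ := h
      exact ⟨(a, b), fun _ => h1⟩
    · exact ⟨0, fun h' => absurd h' h⟩
  choose p hp using hex
  have hb : ∀ᶠ v in cofinite, Q v (p v).1 (p v).2 := hB.1.mono fun v hv => hp v hv
  set β : HeightOneSpectrum (𝓞 K) → Fin (k + 1) → ℂ := fun v j =>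
    (p v).1 ^ (k - (j : ℕ)) * (p v).2 ^ (j : ℕ) with hβ
  have hq0 : ∀ v : HeightOneSpectrum (𝓞 K), (0 : ℝ) < (nm K v : ℝ) := fun v => by
    exact_mod_cast nm_pos v
  have hsq : ∀ v : HeightOneSpectrum (𝓞 K), ((nm K v : ℝ) ^ ((w : ℝ) / 2)) ^ 2 =
      (nm K v : ℝ) ^ w := by
    intro v
    rw [← Real.rpow_natCast, ← Real.rpow_mul (hq0 v).le, ← Real.rpow_natCast]
    congr 1
    push_cast
    ring
  have hsqrt : ∀ v : HeightOneSpectrum (𝓞 K), Real.sqrt ((nm K v : ℝ) ^ w) =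
      (nm K v : ℝ) ^ ((w : ℝ) / 2) := by
    intro v
    rw [← hsq, Real.sqrt_sq (by positivity)]
  have hpw : ∀ v : HeightOneSpectrum (𝓞 K), ((nm K v : ℝ) ^ ((w : ℝ) / 2)) ^ k =
      (nm K v : ℝ) ^ (((k * w : ℕ) : ℝ) / 2) := by
    intro v
    rw [← Real.rpow_natCast, ← Real.rpow_mul (hq0 v).le]
    congr 1
    push_cast
    ring
  have hnorm : ∀ᶠ v in cofinite, ∀ j, ‖β v j‖ = (nm K v : ℝ) ^ (((k * w : ℕ) : ℝ) / 2) := by
    refine hb.mono fun v hv j => ?_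
    have hpos : (0 : ℝ) < (nm K v : ℝ) ^ w := by have := hq0 v; positivity
    obtain ⟨h1, h2⟩ := norm_root (t := t v * (nm K v : ℝ) ^ ((w : ℝ) / 2)) hpos (by
      rw [abs_mul, hsqrt, abs_of_nonneg (a := (nm K v : ℝ) ^ ((w : ℝ) / 2)) (by positivity)]
      exact mul_le_mul_of_nonneg_right (ht v) (by positivity)) hv.1 (by
      rw [hv.2.1]; push_cast; rfl)
    rw [hβ]
    simp only
    have hj := j.2
    have h3 : (k - (j : ℕ)) + (j : ℕ) = k := by omega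
    rw [norm_mul, norm_pow, norm_pow, h1, h2, ← pow_add, h3, hsqrt, hpw]
  have hsum : ∀ᶠ v in cofinite, ∑ j, β v j = (((nm K v : ℝ) ^ (((k * w : ℕ) : ℝ) / 2) *
      (Chebyshev.U ℝ (k : ℤ)).eval (t v / 2) : ℝ) : ℂ) := by
    refine hb.mono fun v hv => ?_
    rw [← hpw]
    refine sym_sum ?_ ?_ k
    · rw [hv.1]
      congr 1
      ring
    · rw [hv.2.1, hsq]
      push_cast
      rfl
  have hreal : ∀ᶠ v in cofinite, (∑ j, β v j).im = 0 := by
    refine hsum.mono fun v hv => ?_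
    rw [hv, Complex.ofReal_im]
  have hedge : (((((k * w : ℕ) : ℝ) / 2 : ℝ)) : ℂ) + 1 + (τ : ℂ) * I = edgePoint (k * w) τ := by
    unfold edgePoint
    push_cast
    ring
  have hsz := size_corr (((k * w : ℕ) : ℝ) / 2) β hnorm hreal U χ hx1 τ B
    (hb.mono fun v hv g hg z => by
      rw [hv.2.2 z]
      exact Finset.prod_congr rfl fun j _ => (det_triv _ _).symm)
    (by
      rw [hedge]
      exact hB.2) (LFun B) (fun s _ => rfl) σ hσ
  simp only [hedge] at hsz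
  have hzb : ∀ v : HeightOneSpectrum (𝓞 K), |(zz τ v).re| ≤ 1 := fun v =>
    (Complex.abs_re_le_norm _).trans (norm_zz τ v).le
  refine ⟨hsz.1, ⟨ub k * 1, fun v => ?_⟩, ?_⟩
  · rw [abs_mul]
    exact mul_le_mul (ub_spec k (ht v)) (hzb v) (abs_nonneg _) (ub_nonneg k)
  have htr : ∀ᶠ v in cofinite, tr (((k * w : ℕ) : ℝ) / 2) β v =
      (Chebyshev.U ℝ (k : ℤ)).eval (t v / 2) := by
    filter_upwards [hnorm, hsum] with v h1 h2
    unfold tr
    rw [if_pos ⟨h1, by rw [h2, Complex.ofReal_im]⟩, h2, Complex.ofReal_re]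
    rw [mul_comm, ← mul_assoc, ← Real.rpow_add (hq0 v), neg_add_cancel, Real.rpow_zero,
      one_mul]
  have hcong := EP_cofinite (K := K)
    (φ := fun v => (Chebyshev.U ℝ (k : ℤ)).eval (t v / 2) * (zz τ v).re)
    (ψ := fun v => tr (((k * w : ℕ) : ℝ) / 2) β v * (zz τ v).re)
    (B := ub k * 1) (C := ((k + 1 : ℕ) : ℝ) * 1)
    (fun v => by
      rw [abs_mul]
      exact mul_le_mul (ub_spec k (ht v)) (hzb v) (abs_nonneg _) (ub_nonneg k))
    (fun v => by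
      rw [abs_mul]
      exact mul_le_mul (abs_tr_le _ _ _) (hzb v) (abs_nonneg _) (by positivity))
    (htr.mono fun v hv => by rw [hv])
  have h8 := hcong.add hsz.2
  rw [add_zero] at h8
  refine h8.congr fun ε => ?_
  have e : (fun v => ((tr (((k * w : ℕ) : ℝ) / 2) β v : ℂ) *
      (χ.character (σ v)⁻¹ * zz τ v)).re) =
      fun v => tr (((k * w : ℕ) : ℝ) / 2) β v * (zz τ v).re := by
    funext v
    rw [Complex.re_ofReal_mul]
    congr 1
    exact RR_triv τ σ v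
  rw [e]
  unfold size
  ring

theorem zz_zero_re (v : HeightOneSpectrum (𝓞 K)) : (zz 0 v).re = 1 := by
  rw [re_zz]
  simp

/-- **Positivity with heights.** -/
theorem positivity_heights {t : HeightOneSpectrum (𝓞 K) → ℝ} (ht : ∀ v, |t v| ≤ 2) (w : ℕ)
    (S : Finset ℕ) (c : ℕ → ℝ) (c₀ : ℝ)
    (hP : ∀ x : ℝ, |x| ≤ 2 → 0 ≤ c₀ + ∑ k ∈ S, c k * (Chebyshev.U ℝ (k : ℤ)).eval (x / 2))
    {κ : Type} (H : Finset κ) (e τ : κ → ℝ) (hτ : ∀ h ∈ H, τ h ≠ 0)
    (hT : ∀ u : ℝ, 0 ≤ 1 + ∑ h ∈ H, e h * Real.cos (τ h * u))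
    (B₀ : ℕ → HeightOneSpectrum (𝓞 K) → ℂ[X]) (hB₀ : ∀ k ∈ S, IsSymFamily t w k 0 (B₀ k))
    (B : ℕ → κ → HeightOneSpectrum (𝓞 K) → ℂ[X])
    (hB : ∀ k ∈ S, ∀ h ∈ H, IsSymFamily t w k (τ h) (B k h)) :
    (∀ η : ℝ, 0 < η → ∀ᶠ ε : ℝ in 𝓝[>] 0, -η ≤ c₀ + ∑ k ∈ S, c k *
      (size (k * w) 0 (B₀ k) ε + ∑ h ∈ H, e h * size (k * w) (τ h) (B k h) ε)) ∧
    ∀ (m₀ : ℕ → ℤ) (m : ℕ → κ → ℤ), (∀ k ∈ S, HasOrder (k * w) 0 (B₀ k) (m₀ k)) →
      (∀ k ∈ S, ∀ h ∈ H, HasOrder (k * w) (τ h) (B k h) (m k h)) →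
      0 ≤ c₀ - ∑ k ∈ S, c k * (m₀ k + ∑ h ∈ H, e h * m k h) := by
  classical
  have hmain : ∀ η : ℝ, 0 < η → ∀ᶠ ε : ℝ in 𝓝[>] 0, -η ≤ c₀ + ∑ k ∈ S, c k *
      (size (k * w) 0 (B₀ k) ε + ∑ h ∈ H, e h * size (k * w) (τ h) (B k h) ε) := by
    intro η hη
    have n1 := ((near_one (K := K)).add (Near.sum H fun h hh =>
      (near_cos (K := K) (hτ h hh)).const_mul (e h))).const_mul c₀
    have n2 := Near.sum S fun k hk => (((sym_near ht w k 0 (hB₀ k hk)).2).add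
      (Near.sum H fun h hh => ((sym_near ht w k (τ h) (hB k hk h hh)).2).const_mul
        (e h))).const_mul (c k)
    have n3 := n1.add n2
    have h1 := n3.nonneg (fun v => by
      have h2 := hP (t v) (ht v)
      have h3 := hT (Real.log (nm K v))
      have h4 := mul_nonneg h2 h3
      refine h4.trans_eq ?_
      simp only [re_zz, zero_mul, Real.cos_zero, mul_one]
      rw [add_mul]
      congr 1
      rw [Finset.sum_mul]
      refine Finset.sum_congr rfl fun k _ => ?_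
      rw [mul_assoc, mul_add, mul_one, Finset.mul_sum]
      congr 2
      refine Finset.sum_congr rfl fun h _ => ?_
      ring) hη
    refine h1.mono fun ε hε => ?_
    simpa using hε
  refine ⟨hmain, fun m₀ m hm₀ hm => ?_⟩
  have h1 : Tendsto (fun ε : ℝ => c₀ + ∑ k ∈ S, c k *
      (size (k * w) 0 (B₀ k) ε + ∑ h ∈ H, e h * size (k * w) (τ h) (B k h) ε)) (𝓝[>] 0)
      (𝓝 (c₀ + ∑ k ∈ S, c k * (-(m₀ k : ℝ) + ∑ h ∈ H, e h * (-(m k h : ℝ))))) := by
    refine (tendsto_finsetSum S fun k hk => ?_).const_add c₀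
    refine ((size_lim (sym_near ht w k 0 (hB₀ k hk)).1 (hm₀ k hk)).add ?_).const_mul (c k)
    exact tendsto_finsetSum H fun h hh =>
      (size_lim (sym_near ht w k (τ h) (hB k hk h hh)).1 (hm k hk h hh)).const_mul (e h)
  have h2 : c₀ + ∑ k ∈ S, c k * (-(m₀ k : ℝ) + ∑ h ∈ H, e h * (-(m k h : ℝ))) =
      c₀ - ∑ k ∈ S, c k * (m₀ k + ∑ h ∈ H, e h * m k h) := by
    rw [sub_eq_add_neg, ← Finset.sum_neg_distrib]
    congr 1
    refine Finset.sum_congr rfl fun k _ => ?_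
    have h3 : ∑ h ∈ H, e h * (-(m k h : ℝ)) = -∑ h ∈ H, e h * m k h := by
      rw [← Finset.sum_neg_distrib]
      exact Finset.sum_congr rfl fun j _ => by ring
    rw [h3]
    ring
  rw [h2] at h1
  refine le_of_forall_pos_le_add fun η hη => ?_
  have := ge_of_tendsto h1 (hmain η hη)
  linarith

end

end Pool.Agent.H2N.ST
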