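import Pool.Agent.H2N.ST.Core

/-!
Symmetric powers of a two-dimensional family: holomorphy of finitely many symmetric powers.
-/

set_option autoImplicit false

namespace Pool.Agent.H2N.ST

open Complex Filter Topology ComplexConjugate NumberField IsDedekindDomain Asymptotics
  Pool.Agent.W401.Cheb Pool.Agent.W540.BE Pool.Agent.W353.L1 Polynomial
open Pool.Agent.H341R2 (lam lam_tendsto)
open Pool.Agent.W353.EF (LFun)
open Pool.Agent.W353.EH (edgePoint size HasOrder)
open Pool.Agent.H2N.TL (size_lim)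
open Pool.Agent.H2N.SY (U_one_val U_two_val U_three_val)

/-! ### Products of Chebyshev polynomials of the second kind -/

theorem two_mul_U (x : ℝ) (m : ℤ) : 2 * x * (Chebyshev.U ℝ m).eval x =
    (Chebyshev.U ℝ (m + 1)).eval x + (Chebyshev.U ℝ (m - 1)).eval x := by
  have h := congrArg (eval x) (Chebyshev.U_add_two ℝ (m - 1))
  have e1 : m - 1 + 2 = m + 1 := by ring
  have e2 : m - 1 + 1 = m := by ring
  rw [e1, e2] at h
  simp only [eval_sub, eval_mul, eval_ofNat, eval_X] at h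
  linarith

theorem U_mul (x : ℝ) (a : ℕ) (m : ℤ) :
    (Chebyshev.U ℝ (a : ℤ)).eval x * (Chebyshev.U ℝ m).eval x =
      ∑ i ∈ Finset.range (a + 1), (Chebyshev.U ℝ (m - a + 2 * i)).eval x := by
  induction a using Nat.strong_induction_on with
  | _ a ih =>
    match a with
    | 0 => simp
    | 1 =>
      rw [Finset.sum_range_succ, Finset.sum_range_one]
      have h := two_mul_U x m
      have e1 : m - ((1 : ℕ) : ℤ) + 2 * ((0 : ℕ) : ℤ) = m - 1 := by push_cast; ring
      have e2 : m - ((1 : ℕ) : ℤ) + 2 * ((1 : ℕ) : ℤ) = m + 1 := by push_cast; ring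
      rw [e1, e2, Nat.cast_one, Chebyshev.U_one]
      simp only [eval_mul, eval_ofNat, eval_X]
      linarith
    | a + 2 =>
      have e1 : ((a + 2 : ℕ) : ℤ) = (a : ℤ) + 2 := by push_cast; ring
      have h1 := ih (a + 1) (by omega)
      have h0 := ih a (by omega)
      have e2 : ((a + 1 : ℕ) : ℤ) = (a : ℤ) + 1 := by push_cast; ring
      rw [e2] at h1
      rw [e1, Chebyshev.U_add_two]
      simp only [eval_sub, eval_mul, eval_ofNat, eval_X]
      have h2 : (2 * x * (Chebyshev.U ℝ ((a : ℤ) + 1)).eval x - (Chebyshev.U ℝ (a : ℤ)).eval x) *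
          (Chebyshev.U ℝ m).eval x = ∑ i ∈ Finset.range (a + 2),
          (2 * x * (Chebyshev.U ℝ (m - ((a : ℤ) + 1) + 2 * i)).eval x) -
          ∑ i ∈ Finset.range (a + 1), (Chebyshev.U ℝ (m - a + 2 * i)).eval x := by
        rw [← Finset.mul_sum, sub_mul, mul_assoc, h1, h0]
      rw [h2]
      have h3 : ∑ i ∈ Finset.range (a + 2),
          (2 * x * (Chebyshev.U ℝ (m - ((a : ℤ) + 1) + 2 * i)).eval x) =
          ∑ i ∈ Finset.range (a + 2), (Chebyshev.U ℝ (m - a + 2 * i)).eval x +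
          ∑ i ∈ Finset.range (a + 2), (Chebyshev.U ℝ (m - ((a : ℤ) + 2) + 2 * i)).eval x := by
        rw [← Finset.sum_add_distrib]
        refine Finset.sum_congr rfl fun i _ => ?_
        rw [two_mul_U]
        congr 3
        · ring
        · ring
      rw [h3, Finset.sum_range_succ (fun i : ℕ => (Chebyshev.U ℝ (m - a + 2 * i)).eval x) (a + 1),
        Finset.sum_range_succ (fun i : ℕ => (Chebyshev.U ℝ (m - ((a : ℤ) + 2) + 2 * i)).eval x)
          (a + 2)]
      have e3 : m - (a : ℤ) + 2 * ((a + 1 : ℕ) : ℤ) = m - ((a : ℤ) + 2) + 2 * ((a + 2 : ℕ) : ℤ) := by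
        push_cast; ring
      rw [e3]
      ring

/-- the index of the `i`-th constituent of `Sym^a ⊗ Sym^b` -/
def idx (a b i : ℕ) : ℕ := (max a b - min a b) + 2 * i

theorem U_mul_nat (x : ℝ) (a b : ℕ) :
    (Chebyshev.U ℝ (a : ℤ)).eval x * (Chebyshev.U ℝ (b : ℤ)).eval x =
      ∑ i ∈ Finset.range (min a b + 1), (Chebyshev.U ℝ ((idx a b i : ℕ) : ℤ)).eval x := by
  rcases le_total a b with h | h
  · rw [U_mul, min_eq_left h]
    refine Finset.sum_congr rfl fun i _ => ?_
    congr 2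
    unfold idx
    rw [max_eq_right h, min_eq_left h]
    push_cast [Nat.cast_sub h]
    ring
  · rw [mul_comm, U_mul, min_eq_right h]
    refine Finset.sum_congr rfl fun i _ => ?_
    congr 2
    unfold idx
    rw [max_eq_left h, min_eq_right h]
    push_cast [Nat.cast_sub h]
    ring

/-- the multiplicity of `Sym^k` in the tensor square of `Sym^0 + ... + Sym^n` -/
def cc (n k : ℕ) : ℕ :=
  ∑ a ∈ Finset.range (n + 1), ∑ b ∈ Finset.range (n + 1), ∑ i ∈ Finset.range (min a b + 1),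
    if idx a b i = k then 1 else 0

theorem square_expand (n : ℕ) (x : ℝ) :
    (∑ a ∈ Finset.range (n + 1), (Chebyshev.U ℝ (a : ℤ)).eval x) ^ 2 =
      ∑ k ∈ Finset.range (2 * n + 1), (cc n k : ℝ) * (Chebyshev.U ℝ (k : ℤ)).eval x := by
  have h1 : ∀ a ∈ Finset.range (n + 1), ∀ b ∈ Finset.range (n + 1),
      ∀ i ∈ Finset.range (min a b + 1), (Chebyshev.U ℝ ((idx a b i : ℕ) : ℤ)).eval x =
      ∑ k ∈ Finset.range (2 * n + 1), (if idx a b i = k then (1 : ℝ) else 0) *
        (Chebyshev.U ℝ (k : ℤ)).eval x := by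
    intro a ha b hb i hi
    rw [Finset.mem_range] at ha hb hi
    have h2 : idx a b i ∈ Finset.range (2 * n + 1) := by
      rw [Finset.mem_range]
      unfold idx
      omega
    rw [Finset.sum_eq_single (idx a b i)]
    · rw [if_pos rfl, one_mul]
    · intro k _ hk
      rw [if_neg (fun h => hk h.symm), zero_mul]
    · intro h
      exact absurd h2 h
  rw [sq, Finset.sum_mul_sum]
  calc ∑ a ∈ Finset.range (n + 1), ∑ b ∈ Finset.range (n + 1),
        (Chebyshev.U ℝ (a : ℤ)).eval x * (Chebyshev.U ℝ (b : ℤ)).eval x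
      = ∑ a ∈ Finset.range (n + 1), ∑ b ∈ Finset.range (n + 1),
        ∑ i ∈ Finset.range (min a b + 1), ∑ k ∈ Finset.range (2 * n + 1),
          (if idx a b i = k then (1 : ℝ) else 0) * (Chebyshev.U ℝ (k : ℤ)).eval x := by
        refine Finset.sum_congr rfl fun a ha => Finset.sum_congr rfl fun b hb => ?_
        rw [U_mul_nat]
        exact Finset.sum_congr rfl fun i hi => h1 a ha b hb i hi
    _ = ∑ k ∈ Finset.range (2 * n + 1), ∑ a ∈ Finset.range (n + 1),
        ∑ b ∈ Finset.range (n + 1), ∑ i ∈ Finset.range (min a b + 1),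
          (if idx a b i = k then (1 : ℝ) else 0) * (Chebyshev.U ℝ (k : ℤ)).eval x := by
        symm
        rw [Finset.sum_comm]
        refine Finset.sum_congr rfl fun a _ => ?_
        rw [Finset.sum_comm]
        refine Finset.sum_congr rfl fun b _ => ?_
        rw [Finset.sum_comm]
    _ = _ := by
        refine Finset.sum_congr rfl fun k _ => ?_
        unfold cc
        push_cast
        rw [Finset.sum_mul]
        refine Finset.sum_congr rfl fun a _ => ?_
        rw [Finset.sum_mul]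
        refine Finset.sum_congr rfl fun b _ => ?_
        rw [Finset.sum_mul]

theorem cc_zero (n : ℕ) : cc n 0 = n + 1 := by
  unfold cc
  have h : ∀ a ∈ Finset.range (n + 1), ∑ b ∈ Finset.range (n + 1),
      ∑ i ∈ Finset.range (min a b + 1), (if idx a b i = 0 then 1 else 0) = 1 := by
    intro a ha
    rw [Finset.sum_eq_single a]
    · rw [Finset.sum_eq_single 0]
      · unfold idx
        simp
      · intro i _ hi
        rw [if_neg]
        unfold idx
        omega
      · intro h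
        exact absurd (Finset.mem_range.2 (Nat.succ_pos _)) h
    · intro b _ hb
      refine Finset.sum_eq_zero fun i _ => ?_
      rw [if_neg]
      unfold idx
      omega
    · intro h
      exact absurd ha h
  rw [Finset.sum_congr rfl h]
  simp

/-- the contribution of `(a, b)` -/
theorem inner_pos {a b i j : ℕ} (hi : i ≤ min a b) (h : idx a b i = j) :
    1 ≤ ∑ i ∈ Finset.range (min a b + 1), (if idx a b i = j then 1 else 0) := by
  have h1 : i ∈ Finset.range (min a b + 1) := by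
    rw [Finset.mem_range]; omega
  have h2 := Finset.single_le_sum (f := fun i => if idx a b i = j then 1 else 0)
    (fun _ _ => Nat.zero_le _) h1
  simp only [h, if_true] at h2
  exact h2

theorem row_pos {n a b i j : ℕ} (hb : b ≤ n) (hi : i ≤ min a b) (h : idx a b i = j) :
    1 ≤ ∑ b ∈ Finset.range (n + 1), ∑ i ∈ Finset.range (min a b + 1),
      (if idx a b i = j then 1 else 0) := by
  have h1 : b ∈ Finset.range (n + 1) := by rw [Finset.mem_range]; omega
  exact (inner_pos hi h).trans (Finset.single_le_sum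
    (f := fun b => ∑ i ∈ Finset.range (min a b + 1), (if idx a b i = j then 1 else 0))
    (fun _ _ => Nat.zero_le _) h1)

theorem cc_ge {j : ℕ} (hj : 2 ≤ j) : j + 2 ≤ cc j j := by
  unfold cc
  set f : ℕ → ℕ := fun a => ∑ b ∈ Finset.range (j + 1), ∑ i ∈ Finset.range (min a b + 1),
    (if idx a b i = j then 1 else 0) with hf
  have h1 : ∀ a ∈ Finset.range (j + 1), 1 ≤ f a := by
    intro a ha
    rw [Finset.mem_range] at ha
    refine row_pos (b := j - a) (i := min a (j - a)) (by omega) le_rfl ?_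
    unfold idx
    omega
  have h2 : 2 ≤ f 2 := by
    have e : ({j - 2, j} : Finset ℕ) ⊆ Finset.range (j + 1) := by
      intro b hb
      rw [Finset.mem_insert, Finset.mem_singleton] at hb
      rw [Finset.mem_range]
      omega
    have h3 := Finset.sum_le_sum_of_subset (f := fun b => ∑ i ∈ Finset.range (min 2 b + 1),
      (if idx 2 b i = j then 1 else 0)) e
    rw [Finset.sum_pair (by omega)] at h3
    have h4 : 1 ≤ ∑ i ∈ Finset.range (min 2 (j - 2) + 1), (if idx 2 (j - 2) i = j then 1 else 0) :=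
      inner_pos (i := min 2 (j - 2)) le_rfl (by unfold idx; omega)
    have h5 : 1 ≤ ∑ i ∈ Finset.range (min 2 j + 1), (if idx 2 j i = j then 1 else 0) :=
      inner_pos (i := 1) (by omega) (by unfold idx; omega)
    exact (by omega : 2 ≤ _).trans h3
  have h6 : ∑ a ∈ Finset.range (j + 1), (if a = 2 then 2 else 1) ≤
      ∑ a ∈ Finset.range (j + 1), f a := by
    refine Finset.sum_le_sum fun a ha => ?_
    split_ifs with h
    · rw [h]; exact h2
    · exact h1 a ha
  refine le_trans ?_ h6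
  have h7 : ∑ a ∈ Finset.range (j + 1), (if a = 2 then 2 else 1) =
      ∑ a ∈ Finset.range (j + 1), ((if a = 2 then 1 else 0) + 1) := by
    refine Finset.sum_congr rfl fun a _ => ?_
    split_ifs <;> rfl
  rw [h7, Finset.sum_add_distrib, Finset.sum_ite_eq', if_pos (by rw [Finset.mem_range]; omega)]
  simp
  omega

/-! ### Weights -/

/-- the degree of the polynomial for `Sym^j` -/
def level (j : ℕ) : ℕ := if j = 1 then 3 else 2 * j

/-- **A nonnegative combination whose `j`-th coefficient exceeds the constant one.** -/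
theorem exists_weights {j : ℕ} (hj : 1 ≤ j) : ∃ (c : ℕ → ℝ) (c₀ : ℝ), (∀ k, 0 ≤ c k) ∧
    0 < c₀ ∧ c₀ < c j ∧ j ∈ Finset.Icc 1 (level j) ∧
    ∀ x : ℝ, |x| ≤ 2 → 0 ≤ c₀ + ∑ k ∈ Finset.Icc 1 (level j),
      c k * (Chebyshev.U ℝ (k : ℤ)).eval (x / 2) := by
  by_cases h1 : j = 1
  · subst h1
    refine ⟨fun k => if k = 1 then 17 else if k = 2 then 12 else if k = 3 then 4 else 0, 14,
      fun k => ?_, by norm_num, by norm_num, by simp [level], fun x hx => ?_⟩
    · simp only
      split_ifs <;> norm_num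
    · have e : Finset.Icc 1 (level 1) = {1, 2, 3} := by
        unfold level
        decide
      rw [e, Finset.sum_insert (by norm_num), Finset.sum_pair (by norm_num), U_one_val, U_two_val,
        U_three_val]
      norm_num
      have : 14 + (17 * x + (12 * (x ^ 2 - 1) + 4 * (x ^ 3 - 2 * x))) =
        (2 + x) * (1 + 2 * x) ^ 2 := by ring
      rw [this]
      exact mul_nonneg (by linarith [(abs_le.1 hx).1]) (sq_nonneg _)
  · have h2 : 2 ≤ j := by omega
    refine ⟨fun k => (cc j k : ℝ), j + 1, fun k => Nat.cast_nonneg _, by positivity, ?_, ?_,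
      fun x _ => ?_⟩
    · have := cc_ge h2
      have h3 : ((j + 2 : ℕ) : ℝ) ≤ (cc j j : ℝ) := by exact_mod_cast this
      push_cast at h3
      linarith
    · rw [Finset.mem_Icc]
      unfold level
      rw [if_neg h1]
      omega
    · have h4 := square_expand j (x / 2)
      rw [Finset.sum_range_succ' (fun k : ℕ => (cc j k : ℝ) *
        (Chebyshev.U ℝ (k : ℤ)).eval (x / 2)), cc_zero] at h4
      have h5 : ∑ k ∈ Finset.Icc 1 (level j), (cc j k : ℝ) * (Chebyshev.U ℝ (k : ℤ)).eval (x / 2) =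
          ∑ k ∈ Finset.range (2 * j), (cc j (k + 1) : ℝ) *
            (Chebyshev.U ℝ ((k + 1 : ℕ) : ℤ)).eval (x / 2) := by
        have e : Finset.Icc 1 (2 * j) = Finset.Ico (0 + 1) (2 * j + 1) := by
          ext k
          rw [Finset.mem_Icc, Finset.mem_Ico]
          omega
        unfold level
        rw [if_neg h1, e, Finset.range_eq_Ico, ← Finset.sum_Ico_add'
          (fun k : ℕ => (cc j k : ℝ) * (Chebyshev.U ℝ (k : ℤ)).eval (x / 2)) 0 (2 * j) 1]
      rw [h5]
      have h6 : (0 : ℝ) ≤ (∑ a ∈ Finset.range (j + 1), (Chebyshev.U ℝ (a : ℤ)).eval (x / 2)) ^ 2 :=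
        sq_nonneg _
      rw [h4] at h6
      simp only [Nat.cast_zero, Chebyshev.U_zero, eval_one, mul_one] at h6
      push_cast at h6 ⊢
      linarith

section
variable {K : Type} [Field K] [NumberField K]

/-- the real point -/
theorem level_zero {t : HeightOneSpectrum (𝓞 K) → ℝ} (ht : ∀ v, |t v| ≤ 2) (w : ℕ) {j : ℕ}
    (hj : 1 ≤ j) (B₀ : ℕ → HeightOneSpectrum (𝓞 K) → ℂ[X])
    (hB₀ : ∀ k ∈ Finset.Icc 1 (level j), IsSymFamily t w k 0 (B₀ k)) (m₀ : ℕ → ℤ)
    (hm₀ : ∀ k ∈ Finset.Icc 1 (level j), HasOrder (k * w) 0 (B₀ k) (m₀ k) ∧ 0 ≤ m₀ k) :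
    m₀ j = 0 := by
  obtain ⟨c, c₀, hc, hc₀, hcj, hjm, hP⟩ := exists_weights hj
  have h := (positivity_heights (κ := Empty) ht w (Finset.Icc 1 (level j)) c c₀ hP ∅
    (fun _ => 0) (fun _ => 0) (by simp) (by simp) B₀ hB₀ (fun k _ => B₀ k) (by simp)).2 m₀
    (fun _ _ => 0) (fun k hk => (hm₀ k hk).1) (by simp)
  simp only [Finset.sum_empty, add_zero] at h
  have h1 : c j * m₀ j ≤ ∑ k ∈ Finset.Icc 1 (level j), c k * (m₀ k : ℝ) :=
    Finset.single_le_sum (f := fun k => c k * (m₀ k : ℝ)) (fun k hk => mul_nonneg (hc k) (by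
      exact_mod_cast (hm₀ k hk).2)) hjm
  have h2 := (hm₀ j hjm).2
  by_contra hne
  have h3 : (1 : ℤ) ≤ m₀ j := by omega
  have h4 : (1 : ℝ) ≤ (m₀ j : ℝ) := by exact_mod_cast h3
  have h5 : c j * 1 ≤ c j * m₀ j := mul_le_mul_of_nonneg_left h4 (hc j)
  linarith

/-- a height `τ ≠ 0` -/
theorem level_height {t : HeightOneSpectrum (𝓞 K) → ℝ} (ht : ∀ v, |t v| ≤ 2) (w : ℕ) {j : ℕ}
    (hj : 1 ≤ j) {τ : ℝ} (hτ : τ ≠ 0) (B₀ B : ℕ → HeightOneSpectrum (𝓞 K) → ℂ[X])
    (hB₀ : ∀ k ∈ Finset.Icc 1 (level j), IsSymFamily t w k 0 (B₀ k))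
    (hB : ∀ k ∈ Finset.Icc 1 (level j), IsSymFamily t w k τ (B k)) (m₀ m : ℕ → ℤ)
    (hm₀ : ∀ k ∈ Finset.Icc 1 (level j), HasOrder (k * w) 0 (B₀ k) (m₀ k) ∧ 0 ≤ m₀ k)
    (hm : ∀ k ∈ Finset.Icc 1 (level j), HasOrder (k * w) τ (B k) (m k) ∧ 0 ≤ m k) :
    m j = 0 := by
  obtain ⟨c, c₀, hc, hc₀, hcj, hjm, hP⟩ := exists_weights hj
  have h := (positivity_heights (κ := Unit) ht w (Finset.Icc 1 (level j)) c c₀ hP Finset.univ
    (fun _ => 1) (fun _ => τ) (fun _ _ => hτ) (fun u => by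
      simp only [Finset.univ_unique, Finset.sum_singleton, one_mul]
      linarith [Real.neg_one_le_cos (τ * u)]) B₀ hB₀ (fun k _ => B k)
      (fun k hk _ _ => hB k hk)).2 m₀ (fun k _ => m k) (fun k hk => (hm₀ k hk).1)
      (fun k hk _ _ => (hm k hk).1)
  simp only [Finset.univ_unique, Finset.sum_singleton, one_mul] at h
  have h1 : c j * ((m₀ j : ℝ) + m j) ≤
      ∑ k ∈ Finset.Icc 1 (level j), c k * ((m₀ k : ℝ) + m k) :=
    Finset.single_le_sum (f := fun k => c k * ((m₀ k : ℝ) + m k))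
      (fun k hk => mul_nonneg (hc k) (by
        have e1 : (0 : ℝ) ≤ (m₀ k : ℝ) := by exact_mod_cast (hm₀ k hk).2
        have e2 : (0 : ℝ) ≤ (m k : ℝ) := by exact_mod_cast (hm k hk).2
        linarith)) hjm
  have h2 := (hm j hjm).2
  have h2' := (hm₀ j hjm).2
  by_contra hne
  have h3 : (1 : ℤ) ≤ m₀ j + m j := by omega
  have h4 : (1 : ℝ) ≤ (m₀ j : ℝ) + m j := by exact_mod_cast h3
  have h5 : c j * 1 ≤ c j * ((m₀ j : ℝ) + m j) := mul_le_mul_of_nonneg_left h4 (hc j)
  linarith

/-- the Sato-Tate mean values of the polynomials of small degree -/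
theorem level_mean {t : HeightOneSpectrum (𝓞 K) → ℝ} (ht : ∀ v, |t v| ≤ 2) (w : ℕ) {R : ℕ}
    (hR : 2 ≤ R) (B₀ : ℕ → HeightOneSpectrum (𝓞 K) → ℂ[X])
    (hB₀ : ∀ k ∈ Finset.Icc 1 (2 * R), IsSymFamily t w k 0 (B₀ k)) (m₀ : ℕ → ℤ)
    (hm₀ : ∀ k ∈ Finset.Icc 1 (2 * R), HasOrder (k * w) 0 (B₀ k) (m₀ k) ∧ 0 ≤ m₀ k)
    (a : ℕ → ℝ) : DirichletMean (fun v => ∑ k ∈ Finset.range (R + 1),
      a k * (Chebyshev.U ℝ (k : ℤ)).eval (t v / 2)) (a 0) := by
  have hlev : ∀ k, 1 ≤ k → k ≤ R → level k ≤ 2 * R := by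
    intro k h1 h2
    unfold level
    split_ifs <;> omega
  have hz : ∀ k, 1 ≤ k → k ≤ R → m₀ k = 0 := by
    intro k h1 h2
    have hsub : ∀ x, x ∈ Finset.Icc 1 (level k) → x ∈ Finset.Icc 1 (2 * R) := by
      intro x hx
      rw [Finset.mem_Icc] at hx ⊢
      exact ⟨hx.1, hx.2.trans (hlev k h1 h2)⟩
    exact level_zero ht w h1 B₀ (fun x hx => hB₀ x (hsub x hx)) m₀ (fun x hx => hm₀ x (hsub x hx))
  have hk : ∀ k ∈ Finset.range (R + 1), Tendsto (fun ε : ℝ => (EP (nm K) ε fun v =>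
      (Chebyshev.U ℝ (k : ℤ)).eval (t v / 2)) / lam ε) (𝓝[>] 0)
      (𝓝 (if k = 0 then 1 else 0)) := by
    intro k hk
    rw [Finset.mem_range] at hk
    by_cases h0 : k = 0
    · subst h0
      rw [if_pos rfl]
      simp only [Nat.cast_zero, Chebyshev.U_zero, eval_one]
      exact EP_one K
    · rw [if_neg h0]
      have hmem : k ∈ Finset.Icc 1 (2 * R) := by rw [Finset.mem_Icc]; omega
      obtain ⟨h1, h2⟩ := sym_near ht w k 0 (hB₀ k hmem)
      have h3 := size_lim h1 (hm₀ k hmem).1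
      rw [hz k (by omega) (by omega)] at h3
      have h4 := h2.2
      simp only [zz_zero_re, mul_one] at h4
      have h5 := h4.add h3
      simp only [sub_add_cancel, Int.cast_zero, neg_zero, add_zero] at h5
      exact h5
  have hsum : Tendsto (fun ε : ℝ => ∑ k ∈ Finset.range (R + 1), a k * ((EP (nm K) ε fun v =>
      (Chebyshev.U ℝ (k : ℤ)).eval (t v / 2)) / lam ε)) (𝓝[>] 0)
      (𝓝 (∑ k ∈ Finset.range (R + 1), a k * (if k = 0 then 1 else 0))) :=
    tendsto_finsetSum _ fun k hk' => (hk k hk').const_mul (a k)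
  have ha : ∑ k ∈ Finset.range (R + 1), a k * (if k = 0 then (1 : ℝ) else 0) = a 0 := by
    simp
  rw [ha] at hsum
  have h1 : Tendsto (fun ε : ℝ => (EP (nm K) ε fun v => ∑ k ∈ Finset.range (R + 1),
      a k * (Chebyshev.U ℝ (k : ℤ)).eval (t v / 2)) / lam ε) (𝓝[>] 0) (𝓝 (a 0)) := by
    refine hsum.congr' ?_
    filter_upwards [self_mem_nhdsWithin] with ε hε
    have hε' : (0 : ℝ) < ε := hε
    rw [EP_sum normSys hε' (Finset.range (R + 1))
      (fun k v => a k * (Chebyshev.U ℝ (k : ℤ)).eval (t v / 2))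
      (fun k => |a k| * Pool.Agent.H2N.SY.ub k) (by
        intro k _ v
        rw [abs_mul]
        exact mul_le_mul_of_nonneg_left (Pool.Agent.H2N.SY.ub_spec k (ht v)) (abs_nonneg _)),
      Finset.sum_div]
    refine Finset.sum_congr rfl fun k _ => ?_
    rw [EP_const_mul, mul_div_assoc]
  have h2 := h1.div (EP_one K) one_ne_zero
  rw [div_one] at h2
  unfold DirichletMean
  refine h2.congr' ?_
  filter_upwards [lam_tendsto.eventually_gt_atTop 0] with ε hε
  rw [Pi.div_apply, div_div_div_cancel_right₀ hε.ne']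
  unfold EP
  simp only [one_mul]
  rfl

end

end Pool.Agent.H2N.ST
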